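import Mathlib
import Pool.Agent.Helper954.GStar.E4

/-!
# MP_842e08_an : the weights for the weighted `g_λ^*` inequality

For `1 < λ ≤ 2`, `2/λ < p < 2` and every weight `U` on the line, the inequality `(∗)`

  `∫ g_λ^*(f)^p U ≤ C ∫ |f|^p U`  for all `f` with finite right side

holds if and only if `U ∈ A_p` and `U ∈ B_{λp/2}`.

Everything is proved from scratch (no unproved input): Muckenhoupt's theorem, Rubio de Francia's
algorithm, a weighted `L²` bound for the area integral with an `A_2` weight via a Bellman function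
and Green's identity on the half plane, the change of aperture, and the two necessary conditions
are in the files `Pool/Agent/Helper954/GStar/*`.
-/

set_option autoImplicit false
open MeasureTheory Filter Set Topology
open scoped ENNReal NNReal

namespace Pool.Agent.Results.MP_842e08_an.FullCharacterization

noncomputable section

/-- A weight: a non-negative locally integrable function on the line. -/
def IsWt (U : ℝ → ℝ) : Prop := (∀ x, 0 ≤ U x) ∧ LocallyIntegrable U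

/-- The Poisson integral `f(z,y) = (1/π) ∫ y f(z-x)/(x²+y²) dx`. -/
def poisson (f : ℝ → ℝ) (z y : ℝ) : ℝ :=
  (1 / Real.pi) * ∫ x, y * f (z - x) / (x ^ 2 + y ^ 2)

/-- The squared length `|∇f(z,y)|²` of the gradient of the Poisson integral in `(z,y)`. -/
def gradSq (f : ℝ → ℝ) (z y : ℝ) : ℝ :=
  (deriv (fun s => poisson f s y) z) ^ 2 + (deriv (fun s => poisson f z s) y) ^ 2

/-- The function `g_λ^*(x)`, with values in `[0,∞]`:
`[∫_{z∈ℝ} ∫_{y>0} (y/(|x-z|+y))^λ |∇f(z,y)|² dy dz]^{1/2}`. -/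
def gStar (lam : ℝ) (f : ℝ → ℝ) (x : ℝ) : ℝ≥0∞ :=
  (∫⁻ z, ∫⁻ y in Ioi (0:ℝ), ENNReal.ofReal ((y / (|x - z| + y)) ^ lam * gradSq f z y)) ^
    (1 / 2 : ℝ)

/-- The weighted inequality `(∗)`: one constant `C` for all `f` with finite right side. -/
def Star (lam p : ℝ) (U : ℝ → ℝ) : Prop :=
  ∃ C : ℝ≥0, ∀ f : ℝ → ℝ, AEMeasurable f →
    ∫⁻ x, ENNReal.ofReal (|f x| ^ p * U x) < ∞ →
    ∫⁻ x, (gStar lam f x) ^ p * ENNReal.ofReal (U x) ≤
      C * ∫⁻ x, ENNReal.ofReal (|f x| ^ p * U x)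

/-- The class `A_r`: `(|I|⁻¹ ∫_I U) (|I|⁻¹ ∫_I U^{-1/(r-1)})^{r-1} ≤ C` for all intervals
`I = [a,b]`. -/
def ClassA (r : ℝ) (U : ℝ → ℝ) : Prop :=
  ∃ C : ℝ≥0, ∀ a b : ℝ, a < b →
    ((ENNReal.ofReal (b - a))⁻¹ * ∫⁻ x in Icc a b, ENNReal.ofReal (U x)) *
      ((ENNReal.ofReal (b - a))⁻¹ *
        ∫⁻ x in Icc a b, ENNReal.ofReal (U x) ^ (-1 / (r - 1))) ^ (r - 1) ≤ C

/-- The class `B_r`: for every interval `I` of centre `c` and length `l`,
`∫ l^{r-1} U(x) / (l^r + |x-c|^r) dx ≤ (C/l) ∫_I U`. -/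
def ClassB (r : ℝ) (U : ℝ → ℝ) : Prop :=
  ∃ C : ℝ≥0, ∀ c l : ℝ, 0 < l →
    ∫⁻ x, ENNReal.ofReal (l ^ (r - 1) * U x / (l ^ r + |x - c| ^ r)) ≤
      ENNReal.ofReal (1 / l) * (C * ∫⁻ x in Icc (c - l / 2) (c + l / 2), ENNReal.ofReal (U x))

/-- **Main theorem.** Let `1 < λ ≤ 2` and `2/λ < p < 2`, and let `U` be a weight. Then `(∗)`
holds if and only if `U ∈ A_p` and `U ∈ B_{λp/2}`. Moreover, if `U ∈ A_p` is not a.e. zero, then
the Poisson integral of every `f` with `∫ |f|^p U < ∞` converges absolutely at every point of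
the upper half plane (so no convention for divergent integrals is used in `(∗)`). -/
theorem result (lam p : ℝ) (h1 : 1 < lam) (h2 : lam ≤ 2) (h3 : 2 / lam < p) (h4 : p < 2)
    (U : ℝ → ℝ) (hU : IsWt U) :
    (Star lam p U ↔ (ClassA p U ∧ ClassB (lam * p / 2) U)) ∧
    (ClassA p U → ¬ (∀ᵐ x, U x = 0) → ∀ f : ℝ → ℝ, AEMeasurable f →
      ∫⁻ x, ENNReal.ofReal (|f x| ^ p * U x) < ∞ → ∀ z y : ℝ, 0 < y →
        Integrable (fun x => y * f (z - x) / (x ^ 2 + y ^ 2))) :=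
  GStar954.final lam p h1 h2 h3 h4 U hU

end

end Pool.Agent.Results.MP_842e08_an.FullCharacterization
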